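import Pool.Agent.Work.MP_b0f829_al.Squares

set_option autoImplicit false

namespace Pool.Agent.Work.MP_b0f829_al

open Subgroup
open scoped commutatorElement IsMulCommutative

universe u v w

section
variable {G : Type u} [Group G]

theorem comm_mul_right_central (N : Subgroup G) (hN : ⁅N, N⁆ ≤ center G) {b n m : G}
    (hb : b ∈ N) (hm : m ∈ N) : ⁅b, n * m⁆ = ⁅b, n⁆ * ⁅b, m⁆ := by
  have hc := Subgroup.mem_center_iff.1 (hN (commutator_mem_commutator hb hm))
  have e : ⁅b, n * m⁆ = ⁅b, n⁆ * (n * ⁅b, m⁆) * n⁻¹ := by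
    simp only [commutatorElement_def]; group
  rw [e, hc n]; group

theorem comm_mul_left_central (N : Subgroup G) (hN : ⁅N, N⁆ ≤ center G) {b b' c : G}
    (hb' : b' ∈ N) (hc : c ∈ N) : ⁅b * b', c⁆ = ⁅b, c⁆ * ⁅b', c⁆ := by
  have h := Subgroup.mem_center_iff.1 (hN (commutator_mem_commutator hb' hc))
  have e : ⁅b * b', c⁆ = (b * ⁅b', c⁆) * b⁻¹ * ⁅b, c⁆ := by
    simp only [commutatorElement_def]; group
  have h2 := h (⁅b, c⁆)
  rw [e, h b, h2]; group

/-- commutation with `c`, as a homomorphism to the centre -/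
def kap (N : Subgroup G) (hN : ⁅N, N⁆ ≤ center G) (c : N) : N →* center G where
  toFun b := ⟨⁅(b : G), (c : G)⁆, hN (commutator_mem_commutator b.2 c.2)⟩
  map_one' := by
    apply Subtype.ext
    simp
  map_mul' := by
    intro b b'
    apply Subtype.ext
    exact comm_mul_left_central N hN b'.2 c.2

/-- **Lemma M**: if `[N,N]` is central and `C` is a finite subset of `N` then
every element of `[N, ⟨⟨C⟩⟩]` is a product of one commutator with each element of `C`. -/
theorem closure_form (N : Subgroup G) [N.Normal] (hN : ⁅N, N⁆ ≤ center G) (C : Finset N) :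
    ∀ t ∈ ⁅N, normalClosure ((fun c : N => (c : G)) '' (C : Set N))⁆, ∃ b : N → G,
      t = (C.toList.map (fun c => ⁅b c, (c : G)⁆)).prod := by
  classical
  let T : Subgroup (center G) :=
    { carrier := {t | ∃ b : N → N, t = ∏ c ∈ C, kap N hN c (b c)}
      mul_mem' := by
        rintro a b ⟨f, rfl⟩ ⟨g, rfl⟩
        refine ⟨fun x => f x * g x, ?_⟩
        rw [← Finset.prod_mul_distrib]
        apply Finset.prod_congr rfl
        intro x _
        rw [map_mul]
      one_mem' := ⟨fun _ => 1, by simp⟩
      inv_mem' := by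
        rintro a ⟨f, rfl⟩
        refine ⟨fun x => (f x)⁻¹, ?_⟩
        rw [← Finset.prod_inv_distrib]
        apply Finset.prod_congr rfl
        intro x _
        rw [map_inv] }
  have hT : ∀ c ∈ C, ∀ b : N, kap N hN c b ∈ T := by
    intro c hc b
    refine ⟨fun y => if y = c then b else 1, ?_⟩
    rw [Finset.prod_eq_single c]
    · simp
    · intro y _ hy
      simp [hy]
    · intro hx'
      exact absurd hc hx'
  have hCN : normalClosure ((fun c : N => (c : G)) '' (C : Set N)) ≤ N := by
    apply Subgroup.normalClosure_le_normal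
    rintro _ ⟨c, _, rfl⟩
    exact c.2
  have main : ∀ n ∈ normalClosure ((fun c : N => (c : G)) '' (C : Set N)), ∀ b ∈ N,
      ⁅b, n⁆ ∈ T.map (center G).subtype := by
    intro n hn
    induction hn using Subgroup.closure_induction with
    | mem x hx =>
      intro b hb
      obtain ⟨a, ⟨c, hc, rfl⟩, ha⟩ := Group.mem_conjugatesOfSet_iff.1 hx
      obtain ⟨g, rfl⟩ := isConj_iff.1 ha
      have hb' : g⁻¹ * b * g ∈ N := by
        have := ‹N.Normal›.conj_mem b hb g⁻¹
        rwa [inv_inv] at this
      have hcen := Subgroup.mem_center_iff.1 (hN (commutator_mem_commutator hb' c.2))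
      have e : ⁅b, g * (c : G) * g⁻¹⁆ = ⁅g⁻¹ * b * g, (c : G)⁆ := by
        have : ⁅b, g * (c : G) * g⁻¹⁆ = g * ⁅g⁻¹ * b * g, (c : G)⁆ * g⁻¹ := by
          simp only [commutatorElement_def]; group
        rw [this, hcen g]; group
      rw [e]
      exact ⟨_, hT c hc ⟨_, hb'⟩, rfl⟩
    | one =>
      intro b hb
      simp only [commutatorElement_one_right]
      exact (T.map (center G).subtype).one_mem
    | mul x y hx hy ihx ihy =>
      intro b hb
      rw [comm_mul_right_central N hN hb (hCN hy)]
      exact (T.map (center G).subtype).mul_mem (ihx b hb) (ihy b hb)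
    | inv x hx ihx =>
      intro b hb
      have h1 := comm_mul_right_central (n := x) N hN hb (N.inv_mem (hCN hx))
      rw [mul_inv_cancel, commutatorElement_one_right] at h1
      have h2 : ⁅b, x⁻¹⁆ = ⁅b, x⁆⁻¹ := by
        rw [eq_comm, inv_eq_iff_mul_eq_one]; exact h1.symm
      rw [h2]
      exact (T.map (center G).subtype).inv_mem (ihx b hb)
  intro t ht
  have hle : ⁅N, normalClosure ((fun c : N => (c : G)) '' (C : Set N))⁆ ≤
      T.map (center G).subtype := by
    rw [Subgroup.commutator_le]
    intro b hb n hn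
    exact main n hn b hb
  obtain ⟨t', ⟨b, hb⟩, rfl⟩ := hle ht
  refine ⟨fun c => (b c : G), ?_⟩
  rw [hb, Finset.prod_eq_multiset_prod, ← Finset.coe_toList, Multiset.map_coe,
    Multiset.prod_coe, map_list_prod, List.map_map]
  rfl

end

end Pool.Agent.Work.MP_b0f829_al
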