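import Mathlib

set_option autoImplicit false

namespace Pool.Agent.Work.MP_b0f829_al

open Subgroup

universe u v w

/-- Products of one `commutator` for each generator form a subgroup, modulo `K`. -/
theorem abs_comm {G : Type u} {Γ : Type v} {M : Type w} [Group G] [Group Γ] [CommGroup M]
    (φ : G → Γ →* Γ) (h1 : ∀ γ, φ 1 γ = γ) (hmul : ∀ g h γ, φ (g * h) γ = φ g (φ h γ))
    (θ : Γ →* M) (S : Finset G) (hS : closure (S : Set G) = ⊤) :
    ∃ T : Subgroup M, (∀ g γ, θ (φ g γ * γ⁻¹) ∈ T) ∧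
      ∀ t ∈ T, ∃ f : G → Γ, t = ∏ x ∈ S, θ (φ x (f x) * (f x)⁻¹) := by
  classical
  let T : Subgroup M :=
    { carrier := {t | ∃ f : G → Γ, t = ∏ x ∈ S, θ (φ x (f x) * (f x)⁻¹)}
      mul_mem' := by
        rintro a b ⟨f, rfl⟩ ⟨g, rfl⟩
        refine ⟨fun x => f x * g x, ?_⟩
        rw [← Finset.prod_mul_distrib]
        apply Finset.prod_congr rfl
        intro x _
        simp only [map_mul, map_inv, mul_inv_rev]
        simp only [mul_comm, mul_left_comm, mul_assoc]
      one_mem' := ⟨fun _ => 1, by simp⟩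
      inv_mem' := by
        rintro a ⟨f, rfl⟩
        refine ⟨fun x => (f x)⁻¹, ?_⟩
        rw [← Finset.prod_inv_distrib]
        apply Finset.prod_congr rfl
        intro x _
        simp only [map_mul, map_inv, mul_inv_rev, inv_inv]
        exact mul_comm _ _ }
  refine ⟨T, ?_, fun t ht => ht⟩
  intro g
  have hg : g ∈ closure (S : Set G) := by rw [hS]; exact mem_top g
  induction hg using Subgroup.closure_induction with
  | mem x hx =>
    intro γ
    refine ⟨fun y => if y = x then γ else 1, ?_⟩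
    rw [Finset.prod_eq_single x]
    · simp
    · intro y _ hy
      simp [hy]
    · intro hx'
      exact absurd hx hx'
  | one =>
    intro γ
    rw [h1]
    simp only [mul_inv_cancel, map_one]
    exact T.one_mem
  | mul a b _ _ ha hb =>
    intro γ
    rw [hmul]
    have e : φ a (φ b γ) * γ⁻¹ = φ a (φ b γ) * (φ b γ)⁻¹ * (φ b γ * γ⁻¹) := by group
    rw [e, map_mul]
    exact T.mul_mem (ha _) (hb _)
  | inv a _ ha =>
    intro γ
    have h2 : φ a (φ a⁻¹ γ) = γ := by rw [← hmul, mul_inv_cancel, h1]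
    have h3 := T.inv_mem (ha (φ a⁻¹ γ))
    rw [h2, ← map_inv] at h3
    have e : (γ * (φ a⁻¹ γ)⁻¹)⁻¹ = φ a⁻¹ γ * γ⁻¹ := by group
    rwa [e] at h3

/-- The version modulo a subgroup `K` of `Γ` containing all commutators. -/
theorem abs_comm_mod {G : Type u} {Γ : Type v} [Group G] [Group Γ]
    (φ : G → Γ →* Γ) (h1 : ∀ γ, φ 1 γ = γ) (hmul : ∀ g h γ, φ (g * h) γ = φ g (φ h γ))
    (K : Subgroup Γ) (hK : commutator Γ ≤ K) (S : Finset G) (hS : closure (S : Set G) = ⊤) :
    ∃ T : Subgroup Γ, (∀ g γ, φ g γ * γ⁻¹ ∈ T) ∧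
      ∀ t ∈ T, ∃ f : G → Γ, ∃ k ∈ K, t = k * (S.toList.map (fun x => φ x (f x) * (f x)⁻¹)).prod := by
  classical
  let K' : Subgroup (Abelianization Γ) := K.map Abelianization.of
  let θ : Γ →* Abelianization Γ ⧸ K' := (QuotientGroup.mk' K').comp Abelianization.of
  have hθ : ∀ γ : Γ, θ γ = 1 → γ ∈ K := by
    intro γ hγ
    have h : Abelianization.of γ ∈ K' := (QuotientGroup.eq_one_iff _).1 hγ
    obtain ⟨k, hk, hk2⟩ := h
    have h4 : k⁻¹ * γ ∈ (Abelianization.of (G := Γ)).ker := by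
      rw [MonoidHom.mem_ker, map_mul, map_inv, hk2, inv_mul_cancel]
    rw [Abelianization.ker_of] at h4
    have := K.mul_mem hk (hK h4)
    rwa [mul_inv_cancel_left] at this
  obtain ⟨T, hT1, hT2⟩ := abs_comm φ h1 hmul θ S hS
  refine ⟨T.comap θ, hT1, ?_⟩
  intro t ht
  obtain ⟨f, hf⟩ := hT2 _ ht
  refine ⟨f, t * ((S.toList.map (fun x => φ x (f x) * (f x)⁻¹)).prod)⁻¹, ?_, by group⟩
  apply hθ
  rw [map_mul, map_inv, map_list_prod, List.map_map, hf, Finset.prod_eq_multiset_prod,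
    ← Finset.coe_toList, Multiset.map_coe, Multiset.prod_coe]
  simp only [Function.comp_def]
  exact mul_inv_cancel _

/-- `[A,G]` for an abelian normal subgroup `A`. -/
theorem comm_top_form {G : Type u} [Group G] (S : Finset G) (hS : closure (S : Set G) = ⊤)
    (A : Subgroup G) [A.Normal] (hA : ∀ a ∈ A, ∀ b ∈ A, a * b = b * a) :
    ∀ t ∈ ⁅A, (⊤ : Subgroup G)⁆, ∃ f : G → G,
      t = (S.toList.map (fun x => x * (f x) * x⁻¹ * (f x)⁻¹)).prod := by
  classical
  have hK : commutator A ≤ (⊥ : Subgroup A) := by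
    rw [commutator_def, Subgroup.commutator_le]
    intro a _ b _
    rw [Subgroup.mem_bot, commutatorElement_eq_one_iff_mul_comm]
    exact Subtype.ext (hA a a.2 b b.2)
  obtain ⟨T, hT1, hT2⟩ := abs_comm_mod (G := G) (Γ := A)
    (fun g => (MulAut.conjNormal g : MulAut A).toMonoidHom)
    (by intro γ; simp) (by intro g h γ; simp) ⊥ hK S hS
  have hle : ⁅A, (⊤ : Subgroup G)⁆ ≤ T.map A.subtype := by
    rw [Subgroup.commutator_comm, Subgroup.commutator_le]
    intro g _ a ha
    refine ⟨_, hT1 g ⟨a, ha⟩, ?_⟩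
    simp [commutatorElement_def, MulAut.conjNormal_apply]
  intro t ht
  obtain ⟨t', ht', rfl⟩ := hle ht
  obtain ⟨f, k, hk, he⟩ := hT2 t' ht'
  rw [Subgroup.mem_bot] at hk
  subst hk
  refine ⟨fun x => (f x : G), ?_⟩
  rw [he, one_mul, map_list_prod, List.map_map]
  congr 1

end Pool.Agent.Work.MP_b0f829_al
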