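import Pool.Agent.Work.MP_b0f829_al.Main

set_option autoImplicit false

universe u

/-- Finite palindromic width of finitely generated solvable groups of arbitrary derived length
whose derived sections have finite central `2`-quotients, up to the part commuting with a
normally finitely generated subgroup.
Special case of the hand-in CommutatorWidth of the same problem. -/
theorem Pool.Agent.Work.MP_b0f829_al.finite_two_quotients :
    ∀ (G : Type u) [Group G], Group.IsSolvable G →
      (∀ i : ℕ, 2 ≤ i → ∃ (C : Finset G) (B : Finset (Subgroup G)),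
        (∀ c ∈ C, c ∈ derivedSeries G i) ∧
        (∀ b ∈ B, b.Normal ∧ ⁅b, b⁆ ≤ derivedSeries G (i + 2)) ∧
        ((⨆ b ∈ B, ⁅b, (⊤ : Subgroup G)⁆) ⊔
          Subgroup.closure {z : G | ∃ y ∈ derivedSeries G (i + 1), z = y ^ 2} ⊔
          ⁅derivedSeries G i, Subgroup.normalClosure (C : Set G)⁆).relIndex
            (derivedSeries G (i + 1)) ≠ 0) →
      ∀ S : Finset G, Subgroup.closure (S : Set G) = ⊤ →
        ∃ N : ℕ, ∀ g : G, ∃ ps : List (List G),
          ps.length ≤ N ∧
          (∀ w ∈ ps, (∀ x ∈ w, x ∈ S ∨ x⁻¹ ∈ S) ∧ w.reverse = w) ∧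
          (ps.map List.prod).prod = g := by
  intro G _ hG h S hS
  obtain ⟨r, hr⟩ := hG.solvable
  exact Pool.Agent.Work.MP_b0f829_al.main G r hr S hS h
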