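import Pool.Agent.Work.MP_b0f829_al.Step

set_option autoImplicit false

namespace Pool.Agent.Work.MP_b0f829_al

open Subgroup
open scoped commutatorElement

universe u v w

/-- the inductive form of the hypothesis -/
def Cond (G : Type u) [Group G] : Prop :=
  ∀ i : ℕ, ∃ (C F : Finset G) (B : Finset (Subgroup G)), (∀ c ∈ C, c ∈ derivedSeries G i) ∧
    (∀ b ∈ B, b.Normal ∧ ⁅b, b⁆ ≤ derivedSeries G (i + 2)) ∧
    ∀ z ∈ derivedSeries G (i + 1), ∃ t ∈ F,
      t⁻¹ * z ∈ KK (⨆ b ∈ B, ⁅b, (⊤ : Subgroup G)⁆) (derivedSeries G i) (C : Set G)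

theorem map_KK {G : Type u} {G' : Type v} [Group G] [Group G'] (π : G →* G')
    (hπ : Function.Surjective π) (E N : Subgroup G) (E' : Subgroup G') (hE : E.map π ≤ E')
    (C : Set G) :
    (KK E N C).map π ≤ KK E' (N.map π) (π '' C) := by
  rw [KK, KK, Subgroup.map_sup, Subgroup.map_sup]
  refine sup_le_sup (sup_le_sup ?_ ?_) ?_
  · exact hE
  · rw [MonoidHom.map_closure]
    apply Subgroup.closure_mono
    rintro _ ⟨_, ⟨y, hy, rfl⟩, rfl⟩
    refine ⟨π y, ?_, by rw [map_pow]⟩
    rw [← Subgroup.map_commutator]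
    exact ⟨y, hy, rfl⟩
  · rw [Subgroup.map_commutator, ← Subgroup.map_normalClosure C π hπ]

theorem Cond.map {G : Type u} {G' : Type v} [Group G] [Group G'] (π : G →* G')
    (hπ : Function.Surjective π) (h : Cond G) : Cond G' := by
  classical
  intro i
  obtain ⟨C, F, B, hC, hB, hF⟩ := h i
  have hmap : ∀ n, (derivedSeries G n).map π = derivedSeries G' n :=
    fun n => map_derivedSeries_eq hπ n
  have hE : (⨆ b ∈ B, ⁅b, (⊤ : Subgroup G)⁆).map π ≤
      ⨆ b ∈ B.image (Subgroup.map π), ⁅b, (⊤ : Subgroup G')⁆ := by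
    rw [Subgroup.map_iSup]
    apply iSup_le
    intro b
    rw [Subgroup.map_iSup]
    apply iSup_le
    intro hb
    rw [Subgroup.map_commutator, Subgroup.map_top_of_surjective π hπ]
    exact le_iSup₂_of_le (b.map π) (Finset.mem_image_of_mem _ hb) le_rfl
  refine ⟨C.image π, F.image π, B.image (Subgroup.map π), ?_, ?_, ?_⟩
  · intro c hc
    obtain ⟨d, hd, rfl⟩ := Finset.mem_image.1 hc
    rw [← hmap]
    exact ⟨d, hC d hd, rfl⟩
  · intro b hb
    obtain ⟨d, hd, rfl⟩ := Finset.mem_image.1 hb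
    obtain ⟨h1, h2⟩ := hB d hd
    refine ⟨Subgroup.Normal.map h1 π hπ, ?_⟩
    rw [← Subgroup.map_commutator, ← hmap]
    exact Subgroup.map_mono h2
  · intro z hz
    rw [← hmap] at hz
    obtain ⟨y, hy, rfl⟩ := hz
    obtain ⟨t, ht, hk⟩ := hF y hy
    refine ⟨π t, Finset.mem_image_of_mem π ht, ?_⟩
    have := map_KK π hπ _ _ _ hE _ (Subgroup.mem_map_of_mem π hk)
    rw [hmap] at this
    rw [Finset.coe_image]
    simpa using this

theorem main_induction (r : ℕ) : ∀ (G : Type u) [Group G] (S : Finset G),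
    closure (S : Set G) = ⊤ → derivedSeries G r = ⊥ → Cond G →
      ∃ n, ∀ g : G, PLen (S : Set G) n g := by
  classical
  induction r with
  | zero =>
    intro G _ S _ h0 _
    refine ⟨0, fun g => ?_⟩
    rw [derivedSeries_zero] at h0
    have : g ∈ (⊤ : Subgroup G) := mem_top g
    rw [h0, Subgroup.mem_bot] at this
    rw [this]
    exact PLen.one 0
  | succ r ih =>
    intro G _ S hS h0 hcond
    rcases Nat.eq_zero_or_pos r with rfl | hr
    · apply abelian_bdd' S hS
      intro a b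
      have h1 : ⁅a, b⁆ ∈ derivedSeries G 1 := by
        rw [derivedSeries_succ, derivedSeries_zero]
        exact commutator_mem_commutator (mem_top a) (mem_top b)
      rw [h0, Subgroup.mem_bot, commutatorElement_eq_one_iff_mul_comm] at h1
      exact h1
    · obtain ⟨i, rfl⟩ : ∃ i, r = i + 1 := ⟨r - 1, by omega⟩
      have hA : ∀ a ∈ ⁅derivedSeries G i, derivedSeries G i⁆,
          ∀ b ∈ ⁅derivedSeries G i, derivedSeries G i⁆, a * b = b * a := by
        intro a ha b hb
        have h1 : ⁅a, b⁆ ∈ derivedSeries G (i + 1 + 1) := by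
          rw [derivedSeries_succ, derivedSeries_succ]
          exact commutator_mem_commutator ha hb
        rw [h0, Subgroup.mem_bot, commutatorElement_eq_one_iff_mul_comm] at h1
        exact h1
      obtain ⟨C, F, B, hC, hB, hF⟩ := hcond i
      let B' : Finset (Subgroup G) := insert (derivedSeries G (i + 1)) B
      have hB' : ∀ b ∈ B', b.Normal ∧ ∀ x ∈ b, ∀ y ∈ b, x * y = y * x := by
        intro b hb
        rcases Finset.mem_insert.1 hb with rfl | hb
        · exact ⟨inferInstance, hA⟩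
        · obtain ⟨h1, h2⟩ := hB b hb
          refine ⟨h1, fun x hx y hy => ?_⟩
          have h3 := h2 (commutator_mem_commutator hx hy)
          rw [h0, Subgroup.mem_bot, commutatorElement_eq_one_iff_mul_comm] at h3
          exact h3
      obtain ⟨hE1, n3, hn3⟩ := bdd_iSup S hS B' hB'
      have hAE : ⁅⁅derivedSeries G i, derivedSeries G i⁆, (⊤ : Subgroup G)⁆ ≤
          ⨆ b ∈ B', ⁅b, (⊤ : Subgroup G)⁆ :=
        le_iSup₂_of_le (derivedSeries G (i + 1)) (Finset.mem_insert_self _ _) le_rfl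
      have hle : KK (⨆ b ∈ B, ⁅b, (⊤ : Subgroup G)⁆) (derivedSeries G i) (C : Set G) ≤
          KK (⨆ b ∈ B', ⁅b, (⊤ : Subgroup G)⁆) (derivedSeries G i) (C : Set G) := by
        rw [KK, KK]
        refine sup_le_sup (sup_le_sup ?_ le_rfl) le_rfl
        apply iSup₂_le
        intro b hb
        exact le_iSup₂_of_le b (Finset.mem_insert_of_mem hb) le_rfl
      obtain ⟨m, hm⟩ := step S hS (derivedSeries G i) (⨆ b ∈ B', ⁅b, (⊤ : Subgroup G)⁆)
        hAE n3 hn3 C F hC
        (fun z hz => by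
          obtain ⟨t, ht, hk⟩ := hF z hz
          exact ⟨t, ht, hle hk⟩)
      -- the quotient
      let A := derivedSeries G (i + 1)
      have hπ : Function.Surjective (QuotientGroup.mk' A) := QuotientGroup.mk'_surjective A
      have hS' : closure (((S.image (QuotientGroup.mk' A)) : Finset (G ⧸ A)) : Set (G ⧸ A)) = ⊤ := by
        rw [Finset.coe_image, ← MonoidHom.map_closure, hS, ← MonoidHom.range_eq_map,
          MonoidHom.range_eq_top]
        exact hπ
      have hd : derivedSeries (G ⧸ A) (i + 1) = ⊥ := by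
        rw [← map_derivedSeries_eq hπ, QuotientGroup.map_mk'_self]
      obtain ⟨n, hn⟩ := ih (G ⧸ A) (S.image (QuotientGroup.mk' A)) hS' hd
        (Cond.map (QuotientGroup.mk' A) hπ hcond)
      rw [Finset.coe_image] at hn
      exact ⟨n + m, PLen.ext A hn hm⟩

/-- every derived subgroup condition for `i = 0` and `i = 1` holds automatically -/
theorem cond_zero {G : Type u} [Group G] (S : Finset G) (hS : closure (S : Set G) = ⊤) :
    ∃ (C F : Finset G) (B : Finset (Subgroup G)), (∀ c ∈ C, c ∈ derivedSeries G 0) ∧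
    (∀ b ∈ B, b.Normal ∧ ⁅b, b⁆ ≤ derivedSeries G 2) ∧
    ∀ z ∈ derivedSeries G 1, ∃ t ∈ F,
      t⁻¹ * z ∈ KK (⨆ b ∈ B, ⁅b, (⊤ : Subgroup G)⁆) (derivedSeries G 0) (C : Set G) := by
  refine ⟨S, {1}, ∅, fun c _ => mem_top c, by simp,
    fun z hz => ⟨1, Finset.mem_singleton_self _, ?_⟩⟩
  rw [inv_one, one_mul, KK]
  apply Subgroup.mem_sup_right
  have h1 : normalClosure (S : Set G) = ⊤ := by
    rw [eq_top_iff, ← hS]
    exact Subgroup.closure_le_normalClosure
  rw [h1, derivedSeries_zero]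
  rwa [derivedSeries_succ, derivedSeries_zero] at hz

theorem cond_one {G : Type u} [Group G] (S : Finset G) (hS : closure (S : Set G) = ⊤) :
    ∃ (C F : Finset G) (B : Finset (Subgroup G)), (∀ c ∈ C, c ∈ derivedSeries G 1) ∧
    (∀ b ∈ B, b.Normal ∧ ⁅b, b⁆ ≤ derivedSeries G 3) ∧
    ∀ z ∈ derivedSeries G 2, ∃ t ∈ F,
      t⁻¹ * z ∈ KK (⨆ b ∈ B, ⁅b, (⊤ : Subgroup G)⁆) (derivedSeries G 1) (C : Set G) := by
  classical
  let C : Finset G := Finset.image₂ (fun x y => ⁅x, y⁆) S S
  have hCd : ∀ c ∈ C, c ∈ derivedSeries G 1 := by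
    intro c hc
    obtain ⟨x, _, y, _, rfl⟩ := Finset.mem_image₂.1 hc
    rw [derivedSeries_succ, derivedSeries_zero]
    exact commutator_mem_commutator (mem_top x) (mem_top y)
  refine ⟨C, {1}, ∅, hCd, by simp, fun z hz => ⟨1, Finset.mem_singleton_self _, ?_⟩⟩
  rw [inv_one, one_mul, KK]
  apply Subgroup.mem_sup_right
  have h1 : derivedSeries G 1 ≤ normalClosure (C : Set G) := by
    set M := normalClosure (C : Set G) with hM
    have hgen : ∀ x ∈ S, ∀ y ∈ S, ⁅x, y⁆ ∈ M := fun x hx y hy =>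
      Subgroup.subset_normalClosure (Finset.mem_coe.2 (Finset.mem_image₂_of_mem hx hy))
    -- commutator with elements of the closure
    have h2 : ∀ x ∈ S, ∀ g : G, ⁅x, g⁆ ∈ M := by
      intro x hx g
      have hg : g ∈ closure (S : Set G) := by rw [hS]; exact mem_top g
      induction hg using Subgroup.closure_induction with
      | mem y hy => exact hgen x hx y hy
      | one => rw [commutatorElement_one_right]; exact M.one_mem
      | mul a b _ _ ha hb =>
        have e : ⁅x, a * b⁆ = ⁅x, a⁆ * (a * ⁅x, b⁆ * a⁻¹) := by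
          simp only [commutatorElement_def]; group
        rw [e]
        exact M.mul_mem ha ((inferInstance : M.Normal).conj_mem _ hb a)
      | inv a _ ha =>
        have e : ⁅x, a⁻¹⁆ = a⁻¹ * ⁅x, a⁆⁻¹ * (a⁻¹)⁻¹ := by
          simp only [commutatorElement_def]; group
        rw [e]
        exact (inferInstance : M.Normal).conj_mem _ (M.inv_mem ha) a⁻¹
    have h3 : ∀ h g : G, ⁅h, g⁆ ∈ M := by
      intro h g
      have hh : h ∈ closure (S : Set G) := by rw [hS]; exact mem_top h
      induction hh using Subgroup.closure_induction with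
      | mem x hx => exact h2 x hx g
      | one => rw [commutatorElement_one_left]; exact M.one_mem
      | mul a b _ _ ha hb =>
        have e : ⁅a * b, g⁆ = (a * ⁅b, g⁆ * a⁻¹) * ⁅a, g⁆ := by
          simp only [commutatorElement_def]; group
        rw [e]
        exact M.mul_mem ((inferInstance : M.Normal).conj_mem _ hb a) ha
      | inv a _ ha =>
        have e : ⁅a⁻¹, g⁆ = a⁻¹ * ⁅a, g⁆⁻¹ * (a⁻¹)⁻¹ := by
          simp only [commutatorElement_def]; group
        rw [e]
        exact (inferInstance : M.Normal).conj_mem _ (M.inv_mem ha) a⁻¹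
    rw [derivedSeries_succ, derivedSeries_zero, Subgroup.commutator_le]
    intro g _ h _
    exact h3 g h
  rw [derivedSeries_succ] at hz
  exact Subgroup.commutator_mono le_rfl h1 hz

/-- finite index gives finitely many representatives -/
theorem reps {G : Type u} [Group G] (K A : Subgroup G) (h : K.relIndex A ≠ 0) :
    ∃ F : Finset G, ∀ z ∈ A, ∃ t ∈ F, t⁻¹ * z ∈ K := by
  classical
  have hfi : (K.subgroupOf A).FiniteIndex := ⟨h⟩
  have : Finite (A ⧸ (K.subgroupOf A)) := inferInstance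
  let _ : Fintype (A ⧸ (K.subgroupOf A)) := Fintype.ofFinite _
  refine ⟨Finset.univ.image (fun q : A ⧸ (K.subgroupOf A) => ((Quotient.out q : A) : G)), ?_⟩
  intro z hz
  refine ⟨((Quotient.out ((⟨z, hz⟩ : A) : A ⧸ (K.subgroupOf A)) : A) : G),
    Finset.mem_image_of_mem _ (Finset.mem_univ _), ?_⟩
  have h1 : (Quotient.out ((⟨z, hz⟩ : A) : A ⧸ (K.subgroupOf A)))⁻¹ * (⟨z, hz⟩ : A) ∈
      K.subgroupOf A := by
    rw [← QuotientGroup.eq]
    exact Quotient.out_eq _
  exact h1

theorem main (G : Type u) [Group G] (r : ℕ) (hG : derivedSeries G r = ⊥) (S : Finset G)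
    (hS : closure (S : Set G) = ⊤)
    (h : ∀ i : ℕ, 2 ≤ i → ∃ (C : Finset G) (B : Finset (Subgroup G)),
      (∀ c ∈ C, c ∈ derivedSeries G i) ∧
      (∀ b ∈ B, b.Normal ∧ ⁅b, b⁆ ≤ derivedSeries G (i + 2)) ∧
      ((⨆ b ∈ B, ⁅b, (⊤ : Subgroup G)⁆) ⊔
        closure {z : G | ∃ y ∈ derivedSeries G (i + 1), z = y ^ 2} ⊔
        ⁅derivedSeries G i, normalClosure (C : Set G)⁆).relIndex (derivedSeries G (i + 1)) ≠ 0) :
    ∃ N, ∀ g : G, PLen (S : Set G) N g := by
  apply main_induction r G S hS hG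
  intro i
  rcases Nat.lt_or_ge i 2 with hi | hi
  · interval_cases i
    · exact cond_zero S hS
    · exact cond_one S hS
  · obtain ⟨C, B, hC, hB, hrel⟩ := h i hi
    obtain ⟨F, hF⟩ := reps _ _ hrel
    exact ⟨C, F, B, hC, hB, hF⟩

end Pool.Agent.Work.MP_b0f829_al
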