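import Pool.Agent.Work.MP_b0f829_al.H86.Nilp

set_option autoImplicit false

namespace Pool.Agent.Work.MP_b0f829_al.NilpotentByMaxN

open Subgroup Pool.Agent.B0f829
open scoped commutatorElement

/-- `PalLen S k g`: the element `g` is a product of at most `k` palindromic words in the letters
`S` and their inverses. -/
def PalLen {G : Type} [Group G] (S : Set G) (k : ℕ) (g : G) : Prop :=
  ∃ ps : List (List G), ps.length ≤ k ∧
    (∀ w ∈ ps, (∀ x ∈ w, x ∈ S ∨ x⁻¹ ∈ S) ∧ w.reverse = w) ∧ (ps.map List.prod).prod = g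

/-- Lifting a finite normal generating set of a derived subgroup of `G ⧸ B`. -/
theorem lift_gen {G : Type} [Group G] (B : Subgroup G) [B.Normal] (j : ℕ)
    (h : ∃ T : Finset (G ⧸ B), derivedSeries (G ⧸ B) j = normalClosure (T : Set (G ⧸ B))) :
    ∃ T : Finset G, (∀ t ∈ T, t ∈ derivedSeries G j) ∧
      ∀ x ∈ derivedSeries G j, ∃ y ∈ normalClosure (T : Set G), y⁻¹ * x ∈ B := by
  classical
  obtain ⟨T, hT⟩ := h
  let π : G →* G ⧸ B := QuotientGroup.mk' B
  have hsurj : Function.Surjective π := QuotientGroup.mk'_surjective B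
  have hmap := map_derivedSeries_eq hsurj j
  have hl : ∀ t : G ⧸ B, ∃ u : G, t ∈ T → (u ∈ derivedSeries G j ∧ π u = t) := by
    intro t
    by_cases ht : t ∈ T
    · have h1 : t ∈ derivedSeries (G ⧸ B) j := by
        rw [hT]; exact subset_normalClosure ht
      rw [← hmap] at h1
      obtain ⟨u, hu, rfl⟩ := h1
      exact ⟨u, fun _ => ⟨hu, rfl⟩⟩
    · exact ⟨1, fun h => absurd h ht⟩
  choose σ hσ using hl
  refine ⟨T.image σ, ?_, ?_⟩
  · intro t ht
    obtain ⟨u, hu, rfl⟩ := Finset.mem_image.1 ht
    exact (hσ u hu).1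
  · intro x hx
    have h1 : π x ∈ normalClosure (T : Set (G ⧸ B)) := by
      rw [← hT, ← hmap]; exact ⟨x, hx, rfl⟩
    have h2 : normalClosure (T : Set (G ⧸ B)) ≤
        (normalClosure ((T.image σ : Finset G) : Set G)).map π := by
      have hn : ((normalClosure ((T.image σ : Finset G) : Set G)).map π).Normal :=
        Subgroup.Normal.map inferInstance π hsurj
      apply normalClosure_le_normal
      intro t ht
      refine ⟨σ t, subset_normalClosure (by simpa using ⟨t, ht, rfl⟩), (hσ t ht).2⟩
    obtain ⟨y, hy, hyx⟩ := h2 h1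
    exact ⟨y, hy, QuotientGroup.eq.1 hyx⟩

/-- Let `G` be a solvable group and `N` a nilpotent normal subgroup of `G` which is the normal
closure of a finite set, such that every derived subgroup `(G / N)^(j)`, `j ≥ 2`, is the normal
closure of a finite set (for example `G / N` satisfies the maximal condition for normal subgroups,
or is polycyclic). Then the palindromic width of `G` with respect to every finite generating set
is finite. -/
theorem result (G : Type) [Group G] (hsol : Group.IsSolvable G) (N : Subgroup G) [N.Normal]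
    (hnil : Group.IsNilpotent N) (hfg : ∃ T : Finset G, N = normalClosure (T : Set G))
    (hmax : ∀ j : ℕ, 2 ≤ j →
      ∃ T : Finset (G ⧸ N), derivedSeries (G ⧸ N) j = normalClosure (T : Set (G ⧸ N)))
    (S : Finset G) (hS : closure (S : Set G) = ⊤) :
    ∃ k : ℕ, ∀ g : G, PalLen (S : Set G) k g := by
  obtain ⟨T, hT⟩ := hfg
  exact finite_of_nilpotent hsol N hnil T hT (fun j hj => lift_gen N j (hmax j hj)) S hS

end Pool.Agent.Work.MP_b0f829_al.NilpotentByMaxN
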