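import Mathlib

set_option autoImplicit false

namespace Pool.Agent.Work.MP_b0f829_al

open Subgroup

universe u v

/-- `g` is a product of at most `n` palindromic words in `S` and inverses. -/
def PLen {G : Type u} [Group G] (S : Set G) (n : ℕ) (g : G) : Prop :=
  ∃ ps : List (List G), ps.length ≤ n ∧
    (∀ w ∈ ps, (∀ x ∈ w, x ∈ S ∨ x⁻¹ ∈ S) ∧ w.reverse = w) ∧
    (ps.map List.prod).prod = g

variable {G : Type u} [Group G] {S : Set G}

theorem PLen.mono {n m : ℕ} {g : G} (h : PLen S n g) (hnm : n ≤ m) : PLen S m g := by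
  obtain ⟨ps, h1, h2, h3⟩ := h
  exact ⟨ps, h1.trans hnm, h2, h3⟩

theorem PLen.mul {n m : ℕ} {g h : G} (hg : PLen S n g) (hh : PLen S m h) :
    PLen S (n + m) (g * h) := by
  obtain ⟨ps, h1, h2, h3⟩ := hg
  obtain ⟨qs, k1, k2, k3⟩ := hh
  refine ⟨ps ++ qs, ?_, ?_, ?_⟩
  · rw [List.length_append]; omega
  · intro w hw
    rcases List.mem_append.1 hw with hw | hw
    · exact h2 w hw
    · exact k2 w hw
  · rw [List.map_append, List.prod_append, h3, k3]

theorem PLen.one (n : ℕ) : PLen S n (1 : G) := ⟨[], by simp, by simp, by simp⟩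

theorem PLen.pal {w : List G} (hw : ∀ x ∈ w, x ∈ S ∨ x⁻¹ ∈ S) (hr : w.reverse = w) :
    PLen S 1 w.prod := ⟨[w], by simp, by simpa using ⟨hw, hr⟩, by simp⟩

theorem prod_inv_list (w : List G) : (w.reverse.map (fun x => x⁻¹)).prod = w.prod⁻¹ := by
  rw [List.prod_inv_reverse, List.map_reverse]

theorem PLen.inv {n : ℕ} {g : G} (h : PLen S n g) : PLen S n g⁻¹ := by
  obtain ⟨ps, h1, h2, h3⟩ := h
  refine ⟨(ps.map (fun w => w.reverse.map (fun x => x⁻¹))).reverse, by simpa using h1, ?_, ?_⟩
  · intro w hw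
    rw [List.mem_reverse, List.mem_map] at hw
    obtain ⟨v, hv, rfl⟩ := hw
    obtain ⟨hv1, hv2⟩ := h2 v hv
    constructor
    · intro x hx
      rw [List.mem_map] at hx
      obtain ⟨y, hy, rfl⟩ := hx
      rw [List.mem_reverse] at hy
      rw [inv_inv]
      exact (hv1 y hy).symm
    · rw [← List.map_reverse, hv2, hv2]
  · rw [← h3, List.prod_inv_reverse, List.map_reverse, List.map_map, List.map_map]
    congr 2
    apply List.map_congr_left
    intro w _
    exact prod_inv_list w

theorem PLen.gen {x : G} (hx : x ∈ S) : PLen S 1 x := by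
  have := PLen.pal (S := S) (w := [x]) (by simpa using Or.inl hx) (by simp)
  simpa using this

theorem PLen.list {n : ℕ} {β : Type v} (L : List β) (f : β → G) (h : ∀ x ∈ L, PLen S n (f x)) :
    PLen S (n * L.length) (L.map f).prod := by
  induction L with
  | nil => simpa using PLen.one 0
  | cons a L ih =>
    rw [List.map_cons, List.prod_cons, List.length_cons]
    have h1 := h a List.mem_cons_self
    have h2 := ih (fun x hx => h x (List.mem_cons_of_mem _ hx))
    exact (h1.mul h2).mono (le_of_eq (by ring))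

theorem exists_word {g : G} (hg : g ∈ closure S) :
    ∃ l : List G, (∀ x ∈ l, x ∈ S ∨ x⁻¹ ∈ S) ∧ l.prod = g := by
  have h : g ∈ (closure S).toSubmonoid := hg
  rw [Subgroup.closure_toSubmonoid] at h
  obtain ⟨l, hl, h⟩ := Submonoid.exists_list_of_mem_closure h
  refine ⟨l, fun x hx => ?_, h⟩
  simpa using hl x hx

/-- conjugates of generators are products of two palindromes -/
theorem PLen.conj_gen (hS : closure S = ⊤) {x : G} (hx : x ∈ S) (g : G) :
    PLen S 2 (g * x * g⁻¹) := by
  have hg : g ∈ closure S := by rw [hS]; exact mem_top g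
  obtain ⟨u, hu, rfl⟩ := exists_word hg
  have h1 : PLen S 1 (u ++ [x] ++ u.reverse).prod := by
    apply PLen.pal
    · intro y hy
      simp only [List.append_assoc, List.cons_append, List.nil_append, List.mem_append,
        List.mem_cons, List.mem_reverse] at hy
      rcases hy with hy | hy | hy
      · exact hu y hy
      · rw [hy]; exact Or.inl hx
      · exact hu y hy
    · simp
  have h2 : PLen S 1 ((u.map (fun y => y⁻¹)) ++ (u.map (fun y => y⁻¹)).reverse).prod := by
    apply PLen.pal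
    · intro y hy
      simp only [List.mem_append, List.mem_map, List.mem_reverse] at hy
      rcases hy with ⟨z, hz, rfl⟩ | ⟨z, hz, rfl⟩
      · rw [inv_inv]; exact (hu z hz).symm
      · rw [inv_inv]; exact (hu z hz).symm
    · simp
  have h3 := h1.mul h2
  have e1 : (u.map (fun y => y⁻¹)).prod = u.reverse.prod⁻¹ := by
    have := prod_inv_list u.reverse
    rwa [List.reverse_reverse] at this
  have e2 : (u.map (fun y => y⁻¹)).reverse.prod = u.prod⁻¹ := by
    rw [← List.map_reverse]; exact prod_inv_list u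
  have e : (u ++ [x] ++ u.reverse).prod *
      ((u.map (fun y => y⁻¹)) ++ (u.map (fun y => y⁻¹)).reverse).prod = u.prod * x * u.prod⁻¹ := by
    rw [List.prod_append, List.prod_append, List.prod_append, e1, e2]
    simp [mul_assoc]
  rw [e] at h3
  exact h3

/-- the conjugates of a fixed element have bounded palindromic length -/
theorem PLen.conj (hS : closure S = ⊤) (c : G) : ∃ n, ∀ g : G, PLen S n (g * c * g⁻¹) := by
  have hc : c ∈ closure S := by rw [hS]; exact mem_top c
  induction hc using Subgroup.closure_induction with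
  | mem x hx => exact ⟨2, fun g => PLen.conj_gen hS hx g⟩
  | one => exact ⟨0, fun g => by simpa using PLen.one 0⟩
  | mul a b _ _ ha hb =>
    obtain ⟨n, hn⟩ := ha
    obtain ⟨m, hm⟩ := hb
    refine ⟨n + m, fun g => ?_⟩
    have := (hn g).mul (hm g)
    have e : g * a * g⁻¹ * (g * b * g⁻¹) = g * (a * b) * g⁻¹ := by group
    rwa [e] at this
  | inv a _ ha =>
    obtain ⟨n, hn⟩ := ha
    refine ⟨n, fun g => ?_⟩
    have := (hn g).inv
    have e : (g * a * g⁻¹)⁻¹ = g * a⁻¹ * g⁻¹ := by group
    rwa [e] at this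

/-- every element has some palindromic length -/
theorem PLen.exists (hS : closure S = ⊤) (c : G) : ∃ n, PLen S n c := by
  obtain ⟨n, hn⟩ := PLen.conj hS c
  exact ⟨n, by simpa using hn 1⟩

/-- commutators with a fixed element have bounded palindromic length -/
theorem PLen.comm_right (hS : closure S = ⊤) (c : G) :
    ∃ n, ∀ g : G, PLen S n (g * c * g⁻¹ * c⁻¹) := by
  obtain ⟨n, hn⟩ := PLen.conj hS c
  obtain ⟨m, hm⟩ := PLen.exists hS c
  exact ⟨n + m, fun g => (hn g).mul hm.inv⟩

theorem PLen.comm_left (hS : closure S = ⊤) (c : G) :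
    ∃ n, ∀ g : G, PLen S n (c * g * c⁻¹ * g⁻¹) := by
  obtain ⟨n, hn⟩ := PLen.comm_right hS c
  refine ⟨n, fun g => ?_⟩
  have := (hn g).inv
  have e : (g * c * g⁻¹ * c⁻¹)⁻¹ = c * g * c⁻¹ * g⁻¹ := by group
  rwa [e] at this

/-- a bound uniform over a finite set -/
theorem PLen.finset_unif {β : Type v} (F : Finset β) (P : β → ℕ → Prop)
    (hmono : ∀ b n m, n ≤ m → P b n → P b m) (h : ∀ b ∈ F, ∃ n, P b n) :
    ∃ n, ∀ b ∈ F, P b n := by
  classical
  induction F using Finset.induction_on with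
  | empty => exact ⟨0, by simp⟩
  | insert a F ha ih =>
    obtain ⟨n, hn⟩ := ih (fun b hb => h b (Finset.mem_insert_of_mem hb))
    obtain ⟨m, hm⟩ := h a (Finset.mem_insert_self _ _)
    refine ⟨max n m, fun b hb => ?_⟩
    rcases Finset.mem_insert.1 hb with rfl | hb
    · exact hmono _ _ _ (le_max_right _ _) hm
    · exact hmono _ _ _ (le_max_left _ _) (hn b hb)

/-- lifting along a homomorphism -/
theorem PLen.lift {H : Type v} [Group H] (π : G →* H) {n : ℕ} {h : H}
    (hh : PLen (π '' S) n h) : ∃ g, π g = h ∧ PLen S n g := by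
  classical
  obtain ⟨ps, h1, h2, h3⟩ := hh
  -- a lift of letters
  have key : ∀ y : H, ∃ x : G, (y ∈ π '' S ∨ y⁻¹ ∈ π '' S) → (π x = y ∧ (x ∈ S ∨ x⁻¹ ∈ S)) := by
    intro y
    by_cases hy : y ∈ π '' S ∨ y⁻¹ ∈ π '' S
    · rcases hy with ⟨x, hx, rfl⟩ | ⟨x, hx, hxy⟩
      · exact ⟨x, fun _ => ⟨rfl, Or.inl hx⟩⟩
      · refine ⟨x⁻¹, fun _ => ⟨?_, Or.inr (by simpa using hx)⟩⟩
        rw [map_inv, hxy, inv_inv]
    · exact ⟨1, fun h => absurd h hy⟩
  choose σ hσ using key
  have hw : ∀ w : List H, (∀ x ∈ w, x ∈ π '' S ∨ x⁻¹ ∈ π '' S) → π ((w.map σ).prod) = w.prod := by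
    intro w hw
    rw [map_list_prod, List.map_map]
    congr 1
    conv_rhs => rw [← List.map_id w]
    apply List.map_congr_left
    intro x hx
    exact (hσ x (hw x hx)).1
  refine ⟨((ps.map (fun w => w.map σ)).map List.prod).prod, ?_, ps.map (fun w => w.map σ),
    by simpa using h1, ?_, rfl⟩
  · rw [map_list_prod, List.map_map, List.map_map, ← h3]
    congr 1
    apply List.map_congr_left
    intro w hwp
    exact hw w (h2 w hwp).1
  · intro w hwp
    rw [List.mem_map] at hwp
    obtain ⟨v, hv, rfl⟩ := hwp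
    obtain ⟨hv1, hv2⟩ := h2 v hv
    constructor
    · intro x hx
      rw [List.mem_map] at hx
      obtain ⟨y, hy, rfl⟩ := hx
      exact (hσ y (hv1 y hy)).2
    · rw [← List.map_reverse, hv2]

end Pool.Agent.Work.MP_b0f829_al
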