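import Pool.Agent.Work.MP_b0f829_al.Comm

set_option autoImplicit false

namespace Pool.Agent.Work.MP_b0f829_al

open Subgroup
open scoped commutatorElement

universe u v w

section
variable {G : Type u} [Group G]

/-- pairs `(n, n')` in `N × N` with central product -/
def Pairs (N : Subgroup G) (hN : ⁅N, N⁆ ≤ center G) : Subgroup (G × G) where
  carrier := {p | p.1 ∈ N ∧ p.2 ∈ N ∧ p.1 * p.2 ∈ center G}
  one_mem' := ⟨N.one_mem, N.one_mem, by simp⟩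
  mul_mem' := by
    rintro ⟨a, b⟩ ⟨c, d⟩ ⟨h1, h2, h3⟩ ⟨k1, k2, k3⟩
    refine ⟨N.mul_mem h1 k1, N.mul_mem h2 k2, ?_⟩
    simp only [Prod.mk_mul_mk] at *
    have h4 : ⁅c, b⁆ ∈ center G := hN (commutator_mem_commutator k1 h2)
    -- a c b d = a [c,b] b c d
    have e : a * c * (b * d) = ⁅c, b⁆ * ((a * b) * (c * d)) := by
      have h5 := (Subgroup.mem_center_iff.1 h4) a
      calc a * c * (b * d) = a * ⁅c, b⁆ * b * c * d := by
            rw [commutatorElement_def]; group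
        _ = ⁅c, b⁆ * a * b * c * d := by rw [h5]
        _ = _ := by group
    rw [e]
    exact (center G).mul_mem h4 ((center G).mul_mem h3 k3)
  inv_mem' := by
    rintro ⟨a, b⟩ ⟨h1, h2, h3⟩
    refine ⟨N.inv_mem h1, N.inv_mem h2, ?_⟩
    simp only [Prod.inv_mk] at *
    have h4 : ⁅a⁻¹, b⁻¹⁆ ∈ center G :=
      hN (commutator_mem_commutator (N.inv_mem h1) (N.inv_mem h2))
    have e : a⁻¹ * b⁻¹ = ⁅a⁻¹, b⁻¹⁆ * (a * b)⁻¹ := by
      rw [commutatorElement_def]; group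
    rw [e]
    exact (center G).mul_mem h4 ((center G).inv_mem h3)

/-- the diagonal copy of the centre in `Pairs` -/
def Diag (N : Subgroup G) (hN : ⁅N, N⁆ ≤ center G) : Subgroup (Pairs N hN) where
  carrier := {p | p.1.1 = p.1.2 ∧ p.1.1 ∈ center G}
  one_mem' := ⟨rfl, by simp⟩
  mul_mem' := by
    rintro ⟨⟨a, b⟩, ha⟩ ⟨⟨c, d⟩, hc⟩ ⟨h1, h2⟩ ⟨k1, k2⟩
    simp only at *
    subst h1
    subst k1
    exact ⟨rfl, (center G).mul_mem h2 k2⟩
  inv_mem' := by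
    rintro ⟨⟨a, b⟩, ha⟩ ⟨h1, h2⟩
    simp only at *
    subst h1
    exact ⟨rfl, (center G).inv_mem h2⟩

theorem commutator_le_Diag (N : Subgroup G) (hN : ⁅N, N⁆ ≤ center G) :
    commutator (Pairs N hN) ≤ Diag N hN := by
  rw [commutator_def, Subgroup.commutator_le]
  rintro ⟨⟨a, b⟩, h1, h2, h3⟩ _ ⟨⟨c, d⟩, k1, k2, k3⟩ _
  simp only at h1 h2 h3 k1 k2 k3
  have hc1 : ⁅a, c⁆ ∈ center G := hN (commutator_mem_commutator h1 k1)
  refine ⟨?_, ?_⟩
  · change ⁅a, c⁆ = ⁅b, d⁆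
    -- b = a⁻¹ z, d = c⁻¹ w
    obtain ⟨z, hz⟩ : ∃ z, z = a * b := ⟨_, rfl⟩
    obtain ⟨w, hw⟩ : ∃ w, w = c * d := ⟨_, rfl⟩
    rw [← hz] at h3
    rw [← hw] at k3
    have eb : b = a⁻¹ * z := by rw [hz]; group
    have ed : d = c⁻¹ * w := by rw [hw]; group
    rw [eb, ed]
    have hz' := Subgroup.mem_center_iff.1 h3
    have hw' := Subgroup.mem_center_iff.1 k3
    have e1 : ⁅a⁻¹ * z, c⁻¹ * w⁆ = ⁅a⁻¹, c⁻¹⁆ := by
      rw [commutatorElement_def, commutatorElement_def]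
      have s1 : a⁻¹ * z * (c⁻¹ * w) = a⁻¹ * c⁻¹ * w * z := by
        calc a⁻¹ * z * (c⁻¹ * w) = a⁻¹ * (z * (c⁻¹ * w)) := by group
          _ = a⁻¹ * ((c⁻¹ * w) * z) := by rw [hz' (c⁻¹ * w)]
          _ = _ := by group
      have s2 : (a⁻¹ * z)⁻¹ * (c⁻¹ * w)⁻¹ = z⁻¹ * w⁻¹ * (a⁻¹)⁻¹ * (c⁻¹)⁻¹ := by
        have hw'' := Subgroup.mem_center_iff.1 ((center G).inv_mem k3)
        calc (a⁻¹ * z)⁻¹ * (c⁻¹ * w)⁻¹ = z⁻¹ * (a⁻¹⁻¹ * w⁻¹) * (c⁻¹)⁻¹ := by group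
          _ = z⁻¹ * (w⁻¹ * a⁻¹⁻¹) * (c⁻¹)⁻¹ := by rw [hw'' a⁻¹⁻¹]
          _ = _ := by group
      calc a⁻¹ * z * (c⁻¹ * w) * (a⁻¹ * z)⁻¹ * (c⁻¹ * w)⁻¹
          = a⁻¹ * z * (c⁻¹ * w) * ((a⁻¹ * z)⁻¹ * (c⁻¹ * w)⁻¹) := by group
        _ = a⁻¹ * c⁻¹ * w * z * (z⁻¹ * w⁻¹ * (a⁻¹)⁻¹ * (c⁻¹)⁻¹) := by rw [s1, s2]
        _ = _ := by group
    rw [e1]
    -- [a⁻¹,c⁻¹] = [a,c] : conjugate by (ca)
    have h5 := Subgroup.mem_center_iff.1 hc1 ((c * a)⁻¹)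
    have : ⁅a⁻¹, c⁻¹⁆ = (c * a)⁻¹ * ⁅a, c⁆ * (c * a) := by
      rw [commutatorElement_def, commutatorElement_def]; group
    rw [this, h5]; group
  · exact hc1

/-- **Key lemma**: squares of elements of a central derived subgroup `[N,N]` are products
of `2 |S|` commutators with the generators. -/
theorem sq_form (S : Finset G) (hS : closure (S : Set G) = ⊤)
    (N : Subgroup G) [N.Normal] (hN : ⁅N, N⁆ ≤ center G) :
    ∀ z ∈ ⁅N, N⁆, ∃ f g : G → G,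
      z ^ 2 = (S.toList.map (fun x => x * (f x) * x⁻¹ * (f x)⁻¹)).prod *
        ((S.toList.map (fun x => x * (g x) * x⁻¹ * (g x)⁻¹)).prod)⁻¹ := by
  classical
  -- the action
  let φ : G → Pairs N hN →* Pairs N hN := fun g =>
    { toFun := fun p => ⟨(g * p.1.1 * g⁻¹, g * p.1.2 * g⁻¹), by
        obtain ⟨⟨a, b⟩, h1, h2, h3⟩ := p
        refine ⟨‹N.Normal›.conj_mem _ h1 g, ‹N.Normal›.conj_mem _ h2 g, ?_⟩
        have e : g * a * g⁻¹ * (g * b * g⁻¹) = g * (a * b) * g⁻¹ := by group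
        simp only at h3 ⊢
        rw [e]
        exact (inferInstance : (center G).Normal).conj_mem _ h3 g⟩
      map_one' := by
        apply Subtype.ext
        simp
      map_mul' := by
        rintro ⟨⟨a, b⟩, ha⟩ ⟨⟨c, d⟩, hc⟩
        apply Subtype.ext
        simp only [MulMemClass.mk_mul_mk, Prod.mk_mul_mk]
        apply Prod.ext
        · simp only; group
        · simp only; group }
  have hφ : ∀ g p, ((φ g p : Pairs N hN) : G × G) = (g * p.1.1 * g⁻¹, g * p.1.2 * g⁻¹) :=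
    fun g p => rfl
  obtain ⟨T, hT1, hT2⟩ := abs_comm_mod (G := G) (Γ := Pairs N hN) φ
    (by
      intro γ
      apply Subtype.ext
      rw [hφ]; simp)
    (by
      intro g h γ
      apply Subtype.ext
      rw [hφ, hφ, hφ]
      apply Prod.ext
      · simp only; group
      · simp only; group)
    (Diag N hN) (commutator_le_Diag N hN) S hS
  -- the antidiagonal is in T
  have hanti : ∀ z (hz : z ∈ ⁅N, N⁆), ∃ p : Pairs N hN, p ∈ T ∧ p.1 = (z, z⁻¹) := by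
    intro z hz
    induction hz using Subgroup.closure_induction with
    | mem x hx =>
      obtain ⟨m, hm, n, hn, rfl⟩ := hx
      refine ⟨_, hT1 m ⟨(n, n⁻¹), hn, N.inv_mem hn, by simp⟩, ?_⟩
      have hc := Subgroup.mem_center_iff.1 (hN (commutator_mem_commutator hm hn))
      have e : m * n⁻¹ * m⁻¹ * (n⁻¹)⁻¹ = ⁅m, n⁆⁻¹ := by
        have h5 := hc (m * n⁻¹ * m⁻¹)
        have h6 : m * n⁻¹ * m⁻¹ * ⁅m, n⁆ = n⁻¹ := by
          rw [commutatorElement_def]; group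
        rw [h6] at h5
        -- h5 : n⁻¹ = ⁅m,n⁆ * (m n⁻¹ m⁻¹)
        rw [eq_comm, inv_eq_iff_mul_eq_one]
        calc ⁅m, n⁆ * (m * n⁻¹ * m⁻¹ * (n⁻¹)⁻¹) = (⁅m, n⁆ * (m * n⁻¹ * m⁻¹)) * (n⁻¹)⁻¹ := by group
          _ = n⁻¹ * (n⁻¹)⁻¹ := by rw [← h5]
          _ = 1 := by group
      apply Prod.ext
      · change m * n * m⁻¹ * n⁻¹ = ⁅m, n⁆
        rw [commutatorElement_def]
      · exact e
    | one => exact ⟨1, T.one_mem, by rw [inv_one]; rfl⟩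
    | mul a b ha hb iha ihb =>
      obtain ⟨p, hp, hp2⟩ := iha
      obtain ⟨q, hq, hq2⟩ := ihb
      refine ⟨p * q, T.mul_mem hp hq, ?_⟩
      have hc := Subgroup.mem_center_iff.1 (hN ha)
      rw [Subgroup.coe_mul, hp2, hq2, Prod.mk_mul_mk, mul_inv_rev]
      apply Prod.ext
      · rfl
      · have hc' := Subgroup.mem_center_iff.1 ((center G).inv_mem (hN ha)) b⁻¹
        exact hc'.symm
    | inv a ha iha =>
      obtain ⟨p, hp, hp2⟩ := iha
      refine ⟨p⁻¹, T.inv_mem hp, ?_⟩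
      rw [Subgroup.coe_inv, hp2]
      simp
  intro z hz
  obtain ⟨p, hp, hp2⟩ := hanti z hz
  obtain ⟨f, k, hk, he⟩ := hT2 p hp
  obtain ⟨hk1, hk2⟩ := hk
  refine ⟨fun x => (f x).1.1, fun x => (f x).1.2, ?_⟩
  have e1 : z = k.1.1 * (S.toList.map (fun x => x * (f x).1.1 * x⁻¹ * ((f x).1.1)⁻¹)).prod := by
    have := congrArg (fun q : Pairs N hN => ((MonoidHom.fst G G).comp (Pairs N hN).subtype) q) he
    simp only [map_mul, map_list_prod, List.map_map] at this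
    have h7 : ((MonoidHom.fst G G).comp (Pairs N hN).subtype) p = z := by
      change p.1.1 = z
      rw [hp2]
    rw [h7] at this
    exact this
  have e2 : z⁻¹ = k.1.2 * (S.toList.map (fun x => x * (f x).1.2 * x⁻¹ * ((f x).1.2)⁻¹)).prod := by
    have := congrArg (fun q : Pairs N hN => ((MonoidHom.snd G G).comp (Pairs N hN).subtype) q) he
    simp only [map_mul, map_list_prod, List.map_map] at this
    have h7 : ((MonoidHom.snd G G).comp (Pairs N hN).subtype) p = z⁻¹ := by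
      change p.1.2 = z⁻¹
      rw [hp2]
    rw [h7] at this
    exact this
  rw [← hk1] at e2
  set P := (S.toList.map (fun x => x * (f x).1.1 * x⁻¹ * ((f x).1.1)⁻¹)).prod with hP
  set Q := (S.toList.map (fun x => x * (f x).1.2 * x⁻¹ * ((f x).1.2)⁻¹)).prod with hQ
  have hzc := Subgroup.mem_center_iff.1 (hN hz)
  -- z^2 = z * (z⁻¹)⁻¹
  have hkc := Subgroup.mem_center_iff.1 hk2
  have e3 : z = Q⁻¹ * (k.1.1)⁻¹ := by
    rw [← inv_inv z, e2, mul_inv_rev]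
  calc z ^ 2 = z * z := by rw [sq]
    _ = k.1.1 * P * (Q⁻¹ * (k.1.1)⁻¹) := by rw [← e1, ← e3]
    _ = k.1.1 * (P * Q⁻¹) * (k.1.1)⁻¹ := by group
    _ = P * Q⁻¹ * k.1.1 * (k.1.1)⁻¹ := by rw [hkc (P * Q⁻¹)]
    _ = P * Q⁻¹ := by group

end

end Pool.Agent.Work.MP_b0f829_al
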