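import Pool.Agent.Work.MP_b0f829_al.PLen
import Pool.Agent.Work.MP_b0f829_al.Clos

set_option autoImplicit false

namespace Pool.Agent.Work.MP_b0f829_al

open Subgroup
open scoped commutatorElement

universe u v w

section
variable {G : Type u} [Group G]

theorem bdd_commTop (S : Finset G) (hS : closure (S : Set G) = ⊤)
    (A : Subgroup G) [A.Normal] (hA : ∀ a ∈ A, ∀ b ∈ A, a * b = b * a) :
    ∃ n, ∀ t ∈ ⁅A, (⊤ : Subgroup G)⁆, PLen (S : Set G) n t := by
  obtain ⟨n, hn⟩ := PLen.finset_unif S (fun x n => ∀ g, PLen (S : Set G) n (x * g * x⁻¹ * g⁻¹))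
    (fun b n m hnm h g => (h g).mono hnm) (fun x _ => PLen.comm_left hS x)
  refine ⟨n * S.toList.length, fun t ht => ?_⟩
  obtain ⟨f, rfl⟩ := comm_top_form S hS A hA t ht
  exact PLen.list _ _ (fun x hx => hn x (Finset.mem_toList.1 hx) _)

theorem bdd_sq (S : Finset G) (hS : closure (S : Set G) = ⊤)
    (N : Subgroup G) [N.Normal] (hN : ⁅N, N⁆ ≤ center G) :
    ∃ n, ∀ z ∈ ⁅N, N⁆, PLen (S : Set G) n (z ^ 2) := by
  obtain ⟨n, hn⟩ := PLen.finset_unif S (fun x n => ∀ g, PLen (S : Set G) n (x * g * x⁻¹ * g⁻¹))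
    (fun b n m hnm h g => (h g).mono hnm) (fun x _ => PLen.comm_left hS x)
  refine ⟨n * S.toList.length + n * S.toList.length, fun z hz => ?_⟩
  obtain ⟨f, g, h⟩ := sq_form S hS N hN z hz
  rw [h]
  apply PLen.mul
  · exact PLen.list _ _ (fun x hx => hn x (Finset.mem_toList.1 hx) _)
  · apply PLen.inv
    exact PLen.list _ _ (fun x hx => hn x (Finset.mem_toList.1 hx) _)

theorem bdd_clos (S : Finset G) (hS : closure (S : Set G) = ⊤)
    (N : Subgroup G) [N.Normal] (hN : ⁅N, N⁆ ≤ center G) (C : Finset N) :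
    ∃ n, ∀ t ∈ ⁅N, normalClosure ((fun c : N => (c : G)) '' (C : Set N))⁆,
      PLen (S : Set G) n t := by
  obtain ⟨n, hn⟩ := PLen.finset_unif C
    (fun c n => ∀ g, PLen (S : Set G) n (g * (c : G) * g⁻¹ * (c : G)⁻¹))
    (fun b n m hnm h g => (h g).mono hnm) (fun c _ => PLen.comm_right hS (c : G))
  refine ⟨n * C.toList.length, fun t ht => ?_⟩
  obtain ⟨f, rfl⟩ := closure_form N hN C t ht
  exact PLen.list _ _ (fun x hx => hn x (Finset.mem_toList.1 hx) _)

theorem sq_closure_central (A : Subgroup G) (hA : A ≤ center G) :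
    ∀ x ∈ closure {z : G | ∃ y ∈ A, z = y ^ 2}, ∃ y ∈ A, x = y ^ 2 := by
  intro x hx
  induction hx using Subgroup.closure_induction with
  | mem x hx => exact hx
  | one => exact ⟨1, A.one_mem, by simp⟩
  | mul a b _ _ ha hb =>
    obtain ⟨y, hy, rfl⟩ := ha
    obtain ⟨z, hz, rfl⟩ := hb
    refine ⟨y * z, A.mul_mem hy hz, ?_⟩
    have h := Subgroup.mem_center_iff.1 (hA hy) z
    calc y ^ 2 * z ^ 2 = y * (y * z) * z := by rw [sq, sq]; group
      _ = y * (z * y) * z := by rw [h]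
      _ = (y * z) ^ 2 := by rw [sq]; group
  | inv a _ ha =>
    obtain ⟨y, hy, rfl⟩ := ha
    exact ⟨y⁻¹, A.inv_mem hy, by simp⟩

/-- the subgroup `E (N')² [N, ⟨⟨C⟩⟩]` -/
def KK (E N : Subgroup G) (C : Set G) : Subgroup G :=
  E ⊔ closure {z : G | ∃ y ∈ ⁅N, N⁆, z = y ^ 2} ⊔ ⁅N, normalClosure C⁆

theorem bdd_iSup (S : Finset G) (hS : closure (S : Set G) = ⊤) (B : Finset (Subgroup G))
    (hB : ∀ b ∈ B, b.Normal ∧ ∀ x ∈ b, ∀ y ∈ b, x * y = y * x) :
    (⨆ b ∈ B, ⁅b, (⊤ : Subgroup G)⁆).Normal ∧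
      ∃ n, ∀ t ∈ ⨆ b ∈ B, ⁅b, (⊤ : Subgroup G)⁆, PLen (S : Set G) n t := by
  classical
  induction B using Finset.induction_on with
  | empty =>
    constructor
    · simp only [Finset.notMem_empty, not_false_eq_true, iSup_neg, iSup_bot]
      infer_instance
    · refine ⟨0, fun t ht => ?_⟩
      simp only [Finset.notMem_empty, not_false_eq_true, iSup_neg, iSup_bot,
        Subgroup.mem_bot] at ht
      rw [ht]
      exact PLen.one 0
  | insert a B ha ih =>
    obtain ⟨ih1, n, ih2⟩ := ih (fun b hb => hB b (Finset.mem_insert_of_mem hb))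
    obtain ⟨ha1, ha2⟩ := hB a (Finset.mem_insert_self _ _)
    rw [Finset.iSup_insert]
    obtain ⟨m, hm⟩ := bdd_commTop S hS a ha2
    refine ⟨inferInstance, m + n, fun t ht => ?_⟩
    have ht' : t ∈ ((⁅a, (⊤ : Subgroup G)⁆ ⊔ ⨆ b ∈ B, ⁅b, (⊤ : Subgroup G)⁆ : Subgroup G) :
      Set G) := ht
    rw [Subgroup.mul_normal] at ht'
    obtain ⟨x, hx, y, hy, rfl⟩ := ht'
    exact (hm x hx).mul (ih2 y hy)

theorem step (S : Finset G) (hS : closure (S : Set G) = ⊤)
    (N : Subgroup G) [N.Normal] (E : Subgroup G) [E.Normal]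
    (hAE : ⁅⁅N, N⁆, (⊤ : Subgroup G)⁆ ≤ E) (n3 : ℕ) (hn3 : ∀ e ∈ E, PLen (S : Set G) n3 e)
    (C F : Finset G) (hC : ∀ c ∈ C, c ∈ N)
    (hF : ∀ z ∈ ⁅N, N⁆, ∃ t ∈ F, t⁻¹ * z ∈ KK E N (C : Set G)) :
    ∃ n, ∀ z ∈ ⁅N, N⁆, PLen (S : Set G) n z := by
  classical
  let π : G →* G ⧸ E := QuotientGroup.mk' E
  have hπ : Function.Surjective π := QuotientGroup.mk'_surjective E
  have hker : ∀ g, π g = 1 → g ∈ E := fun g h => (QuotientGroup.eq_one_iff g).1 h
  have hker' : ∀ g ∈ E, π g = 1 := fun g h => (QuotientGroup.eq_one_iff g).2 h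
  let Nb : Subgroup (G ⧸ E) := N.map π
  have hNb : Nb.Normal := Subgroup.Normal.map ‹N.Normal› π hπ
  have hmapA : ⁅Nb, Nb⁆ = (⁅N, N⁆).map π := (Subgroup.map_commutator N N π).symm
  have hcen : ⁅Nb, Nb⁆ ≤ center (G ⧸ E) := by
    rw [hmapA]
    rintro _ ⟨a, ha, rfl⟩
    rw [Subgroup.mem_center_iff]
    intro q
    obtain ⟨g, rfl⟩ := hπ q
    have h1 : ⁅a, g⁆ ∈ E := hAE (commutator_mem_commutator ha (mem_top g))
    have h2 := hker' _ h1
    rw [commutatorElement_def, map_mul, map_mul, map_mul, map_inv, map_inv] at h2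
    have h3 : π a * π g = π g * π a := by
      have := mul_inv_eq_one.1 h2
      have := congrArg (fun q => q * π a) this
      simpa [mul_assoc] using this
    exact h3.symm
  let Sb : Finset (G ⧸ E) := S.image π
  have hSb' : (Sb : Set (G ⧸ E)) = π '' (S : Set G) := Finset.coe_image
  have hSb : closure (Sb : Set (G ⧸ E)) = ⊤ := by
    rw [hSb', ← MonoidHom.map_closure, hS, ← MonoidHom.range_eq_map, MonoidHom.range_eq_top]
    exact hπ
  -- the finite set C in the quotient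
  let Cb : Finset Nb := C.attach.image (fun c => (⟨π c.1, ⟨c.1, hC c.1 c.2, rfl⟩⟩ : Nb))
  have hCb : (fun c : Nb => (c : G ⧸ E)) '' (Cb : Set Nb) = π '' (C : Set G) := by
    ext q
    constructor
    · rintro ⟨c, hc, rfl⟩
      obtain ⟨d, _, rfl⟩ := Finset.mem_image.1 (Finset.mem_coe.1 hc)
      exact ⟨d.1, d.2, rfl⟩
    · rintro ⟨c, hc, rfl⟩
      refine ⟨⟨π c, ⟨c, hC c hc, rfl⟩⟩, ?_, rfl⟩
      exact Finset.mem_coe.2 (Finset.mem_image.2 ⟨⟨c, hc⟩, Finset.mem_attach _ _, rfl⟩)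
  obtain ⟨n1, hn1⟩ := bdd_sq Sb hSb Nb hcen
  obtain ⟨n2, hn2⟩ := bdd_clos Sb hSb Nb hcen Cb
  obtain ⟨n4, hn4⟩ := PLen.finset_unif F (fun t n => PLen (S : Set G) n t)
    (fun b n m hnm h => h.mono hnm) (fun t _ => PLen.exists hS t)
  refine ⟨n4 + ((n1 + n2) + n3), fun z hz => ?_⟩
  obtain ⟨t, ht, hk⟩ := hF z hz
  -- the image of k
  have hk' : π (t⁻¹ * z) ∈ (KK E N (C : Set G)).map π := ⟨_, hk, rfl⟩
  have hmap : (KK E N (C : Set G)).map π ≤
      closure {q : G ⧸ E | ∃ y ∈ ⁅Nb, Nb⁆, q = y ^ 2} ⊔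
        ⁅Nb, normalClosure ((fun c : Nb => (c : G ⧸ E)) '' (Cb : Set Nb))⁆ := by
    rw [KK, Subgroup.map_sup, Subgroup.map_sup]
    refine sup_le (sup_le ?_ ?_) ?_
    · rintro _ ⟨e, he, rfl⟩
      rw [hker' e he]
      exact Subgroup.one_mem _
    · refine le_trans ?_ le_sup_left
      rw [MonoidHom.map_closure]
      apply Subgroup.closure_mono
      rintro _ ⟨_, ⟨y, hy, rfl⟩, rfl⟩
      refine ⟨π y, ?_, by rw [map_pow]⟩
      rw [hmapA]
      exact ⟨y, hy, rfl⟩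
    · refine le_trans ?_ le_sup_right
      rw [Subgroup.map_commutator, hCb, ← Subgroup.map_normalClosure (C : Set G) π hπ]
  have hk2 := hmap hk'
  have hk3 : π (t⁻¹ * z) ∈ ((closure {q : G ⧸ E | ∃ y ∈ ⁅Nb, Nb⁆, q = y ^ 2} ⊔
        ⁅Nb, normalClosure ((fun c : Nb => (c : G ⧸ E)) '' (Cb : Set Nb))⁆ :
          Subgroup (G ⧸ E)) : Set (G ⧸ E)) := hk2
  rw [Subgroup.mul_normal] at hk3
  obtain ⟨y, hy, m, hm, hym⟩ := hk3
  obtain ⟨y', hy', rfl⟩ := sq_closure_central _ hcen y hy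
  have h5 : PLen (Sb : Set (G ⧸ E)) (n1 + n2) (π (t⁻¹ * z)) := by
    rw [← hym]
    exact (hn1 y' hy').mul (hn2 m hm)
  rw [hSb'] at h5
  obtain ⟨p, hp1, hp2⟩ := PLen.lift π h5
  have h6 : p⁻¹ * (t⁻¹ * z) ∈ E := by
    apply hker
    rw [map_mul, map_inv, hp1, inv_mul_cancel]
  have h7 := (hn4 t ht).mul (hp2.mul (hn3 _ h6))
  have e : t * (p * (p⁻¹ * (t⁻¹ * z))) = z := by group
  rwa [e] at h7

/-- extension -/
theorem PLen.ext {S : Set G} (A : Subgroup G) [A.Normal] {n m : ℕ}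
    (h1 : ∀ q : G ⧸ A, PLen (QuotientGroup.mk' A '' S) n q) (h2 : ∀ a ∈ A, PLen S m a) :
    ∀ g, PLen S (n + m) g := by
  intro g
  obtain ⟨p, hp1, hp2⟩ := PLen.lift (QuotientGroup.mk' A) (h1 (QuotientGroup.mk' A g))
  have h6 : p⁻¹ * g ∈ A := by
    apply (QuotientGroup.eq_one_iff _).1
    change QuotientGroup.mk' A (p⁻¹ * g) = 1
    rw [map_mul, map_inv, hp1, inv_mul_cancel]
  have := hp2.mul (h2 _ h6)
  have e : p * (p⁻¹ * g) = g := by group
  rwa [e] at this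

end

section abelian

theorem PLen.zpow {G : Type u} [Group G] {S : Set G} {x : G} (hx : x ∈ S) (k : ℤ) :
    PLen S 1 (x ^ k) := by
  obtain ⟨n, rfl | rfl⟩ := Int.eq_nat_or_neg k
  · have := PLen.pal (S := S) (w := List.replicate n x)
      (by intro y hy; rw [List.eq_of_mem_replicate hy]; exact Or.inl hx) (by simp)
    simpa using this
  · have := PLen.pal (S := S) (w := List.replicate n x⁻¹)
      (by intro y hy; rw [List.eq_of_mem_replicate hy]; exact Or.inr (by simpa using hx)) (by simp)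
    simpa using this

theorem abelian_bdd {G : Type u} [CommGroup G] (S : Finset G)
    (hS : closure (S : Set G) = ⊤) : ∃ n, ∀ g : G, PLen (S : Set G) n g := by
  classical
  let T : Subgroup G :=
    { carrier := {t | ∃ k : G → ℤ, t = ∏ x ∈ S, x ^ (k x)}
      mul_mem' := by
        rintro a b ⟨f, rfl⟩ ⟨g, rfl⟩
        refine ⟨fun x => f x + g x, ?_⟩
        rw [← Finset.prod_mul_distrib]
        apply Finset.prod_congr rfl
        intro x _
        rw [zpow_add]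
      one_mem' := ⟨fun _ => 0, by simp⟩
      inv_mem' := by
        rintro a ⟨f, rfl⟩
        refine ⟨fun x => -(f x), ?_⟩
        rw [← Finset.prod_inv_distrib]
        apply Finset.prod_congr rfl
        intro x _
        rw [zpow_neg] }
  have hT : T = ⊤ := by
    rw [eq_top_iff, ← hS, Subgroup.closure_le]
    intro x hx
    refine ⟨fun y => if y = x then 1 else 0, ?_⟩
    rw [Finset.prod_eq_single x]
    · simp
    · intro y _ hy
      simp [hy]
    · intro hx'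
      exact absurd hx hx'
  refine ⟨1 * S.toList.length, fun g => ?_⟩
  have hg : g ∈ T := by rw [hT]; exact mem_top g
  obtain ⟨k, rfl⟩ := hg
  have e : ∏ x ∈ S, x ^ (k x) = (S.toList.map (fun x => x ^ (k x))).prod := by
    rw [Finset.prod_eq_multiset_prod, ← Finset.coe_toList, Multiset.map_coe, Multiset.prod_coe]
  rw [e]
  exact PLen.list _ _ (fun x hx => PLen.zpow (Finset.mem_coe.2 (Finset.mem_toList.1 hx)) _)

theorem abelian_bdd' {G : Type u} [inst : Group G] (S : Finset G)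
    (hS : closure (S : Set G) = ⊤) (hc : ∀ a b : G, a * b = b * a) :
    ∃ n, ∀ g : G, PLen (S : Set G) n g :=
  @abelian_bdd G { inst with mul_comm := hc } S hS

end abelian

end Pool.Agent.Work.MP_b0f829_al
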